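import Pool.Agent.helper73.Nag.Xu
import Pool.Agent.helper7.SC.Defs
import Pool.Agent.helper41.SC.BZ

/-!
# The weighted plane: Xu's lemma and permutations at very general points

Adapted from helper73's files Nag/Gen, Nag/Gen2 and Nag/Xu (the case `N = 1`); the degree is
replaced by the weighted degree `wdeg N`.
-/

set_option autoImplicit false

open MvPolynomial Pool.Agent.helper5.NBS Pool.Agent.helper73.Nag

namespace Pool.Agent.helper22.SC

/-- polynomials of weighted degree at most `d` with multiplicity at least `m i` at `p i` -/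
def LinN (N d : ℕ) {r : ℕ} (m : Fin r → ℕ) (p : Fin r → Fin 2 → ℂ) : Set R2 :=
  {F | wdeg N F ≤ d ∧ ∀ i, F ∈ ptIdeal (p i) ^ m i}

/-- the exponents used in weighted degree `d` -/
noncomputable def ExN (N d : ℕ) : Finset (Fin 2 →₀ ℕ) :=
  (Dd d).filter fun n => n 0 + N * n 1 ≤ d

lemma mem_ExN {N : ℕ} (hN : 0 < N) {d : ℕ} {n : Fin 2 →₀ ℕ} :
    n ∈ ExN N d ↔ n 0 + N * n 1 ≤ d := by
  classical
  rw [ExN, Finset.mem_filter, and_iff_right_iff_imp]
  intro h
  have h1 : n 1 ≤ N * n 1 := Nat.le_mul_of_pos_left _ hN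
  rw [Dd, Finset.mem_biUnion]
  refine ⟨n 0, by rw [Finset.mem_range]; omega, ?_⟩
  rw [Finset.mem_image]
  refine ⟨n 1, by rw [Finset.mem_range]; omega, ?_⟩
  ext i
  fin_cases i <;> simp

lemma wdegN_le_iff {N : ℕ} (hN : 0 < N) {d : ℕ} {F : R2} :
    wdeg N F ≤ d ↔ F.support ⊆ ExN N d := by
  rw [wdeg, Finset.sup_le_iff]
  constructor
  · intro h n hn
    exact (mem_ExN hN).mpr (h n hn)
  · intro h n hn
    exact (mem_ExN hN).mp (h hn)

lemma wdegN_polyOf {N : ℕ} (hN : 0 < N) {d : ℕ} (c : ExN N d → ℂ) :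
    wdeg N (polyOf (ExN N d) c) ≤ d :=
  (wdegN_le_iff hN).mpr (support_polyOf _ _)

/-- the family attached to a vector of coefficients -/
noncomputable def FamN {r : ℕ} {D : Finset (Fin 2 →₀ ℕ)} (v : D → PtRing r) : SS r :=
  ∑ k, rename Sum.inl (monomial k.1 (1 : ℂ)) * rename Sum.inr (v k)

lemma evS_FamN {r : ℕ} {D : Finset (Fin 2 →₀ ℕ)} (p : Fin r → Fin 2 → ℂ) (v : D → PtRing r) :
    evS p (FamN v) = polyOf (D) (fun k => evP p (v k)) := by
  rw [FamN, map_sum, polyOf]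
  apply Finset.sum_congr rfl
  intro k _
  rw [map_mul, evS_rename_inl, evS_rename_inr, mul_comm, C_mul_monomial, mul_one]

lemma Dp_FamN {r : ℕ} {D : Finset (Fin 2 →₀ ℕ)} (j : Fin r) (l : Fin 2) (v : D → PtRing r) :
    Dp j l (FamN v) = FamN (fun k => pderiv (j, l) (v k)) := by
  rw [FamN, FamN, map_sum]
  apply Finset.sum_congr rfl
  intro k _
  rw [Derivation.leibniz, smul_eq_mul, smul_eq_mul]
  have h1 : Dp j l (rename Sum.inl (monomial k.1 (1 : ℂ))) = 0 := by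
    rw [Dp]
    apply pderiv_eq_zero_of_notMem_vars
    intro h
    have := vars_rename (Sum.inl : Fin 2 → Fin 2 ⊕ (Fin r × Fin 2)) (monomial k.1 (1 : ℂ)) h
    simp at this
  have h2 : Dp j l (rename Sum.inr (v k)) = rename Sum.inr (pderiv (j, l) (v k)) := by
    rw [Dp]
    exact pderiv_rename Sum.inr_injective (j, l) (v k)
  rw [h1, h2, mul_zero, add_zero]

lemma FamN_mem {r : ℕ} {D : Finset (Fin 2 →₀ ℕ)} (m : Fin r → ℕ) (v : D → PtRing r)
    (h : (condMat (D) m).mulVec v = 0) (i : Fin r) : FamN v ∈ Dl i ^ m i := by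
  set e := sumAlgEquiv ℂ (Fin 2) (Fin r × Fin 2) with he
  set Ψ : MvPolynomial (Fin 2) (PtRing r) := ∑ k : D, monomial k.1 (v k) with hΨ
  have h1 : e.symm Ψ = FamN v := by
    rw [AlgEquiv.symm_apply_eq, hΨ, FamN, map_sum]
    apply Finset.sum_congr rfl
    intro k _
    rw [map_mul]
    have e1 : e (rename Sum.inl (monomial k.1 (1 : ℂ))) = monomial k.1 1 := by
      have : (e : SS r →ₐ[ℂ] _).comp (rename Sum.inl) =
        (MvPolynomial.mapAlgHom (Algebra.ofId ℂ (PtRing r)) : R2 →ₐ[ℂ] _) := by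
        ext j
        simp [he]
      have h2 := congrArg (fun f : R2 →ₐ[ℂ] MvPolynomial (Fin 2) (PtRing r) =>
        f (monomial k.1 (1 : ℂ))) this
      simpa using h2
    have e2 : e (rename Sum.inr (v k)) = C (v k) := by
      have : (e : SS r →ₐ[ℂ] _).comp (rename Sum.inr) =
        (Algebra.ofId (PtRing r) (MvPolynomial (Fin 2) (PtRing r))).restrictScalars ℂ := by
        ext j
        simp [he, Algebra.ofId_apply, MvPolynomial.algebraMap_eq]
      have h2 := congrArg (fun f : PtRing r →ₐ[ℂ] MvPolynomial (Fin 2) (PtRing r) => f (v k)) this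
      simpa [Algebra.ofId_apply, MvPolynomial.algebraMap_eq] using h2
    rw [e1, e2, mul_comm, C_mul_monomial, mul_one]
  have h2 : TT i Ψ ∈ (idealOfVars (Fin 2) (PtRing r)) ^ m i := by
    rw [mem_pow_idealOfVars_iff']
    intro n hn
    have h3 := congrFun h ⟨i, ⟨n, hn⟩⟩
    rw [Matrix.mulVec, dotProduct] at h3
    rw [hΨ, map_sum, coeff_sum]
    rw [Pi.zero_apply] at h3
    rw [← h3]
    apply Finset.sum_congr rfl
    intro k _
    have : (monomial k.1 (v k) : MvPolynomial (Fin 2) (PtRing r)) = C (v k) * monomial k.1 1 := by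
      rw [C_mul_monomial, mul_one]
    rw [this, map_mul, ← MvPolynomial.algebraMap_eq, AlgEquiv.commutes, MvPolynomial.algebraMap_eq,
      coeff_C_mul, TT_monomial, condMat, mul_comm]
  let f : MvPolynomial (Fin 2) (PtRing r) →+* SS r :=
    (e.symm : MvPolynomial (Fin 2) (PtRing r) →+* SS r).comp
      ((TT i).symm : MvPolynomial (Fin 2) (PtRing r) →+* MvPolynomial (Fin 2) (PtRing r))
  have h4 : f (TT i Ψ) = FamN v := by
    rw [← h1]
    simp [f]
  rw [← h4]
  have h5 : Ideal.map f (idealOfVars (Fin 2) (PtRing r)) ≤ Dl i := by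
    rw [idealOfVars, Ideal.map_span, Ideal.span_le]
    rintro _ ⟨_, ⟨k, rfl⟩, rfl⟩
    have : f (X k) = X (Sum.inl k) - X (Sum.inr (i, k)) := by
      show e.symm ((TT i).symm (X k)) = _
      have h6 : (TT i).symm (X k) = X k - C (X (i, k)) := by simp [TT]
      rw [h6, map_sub, he]
      simp
    rw [this]
    exact Ideal.subset_span ⟨k, rfl⟩
  have h6 := Ideal.mem_map_of_mem f h2
  rw [Ideal.map_pow] at h6
  exact Ideal.pow_right_mono h5 _ h6

/-- a family of curves with prescribed multiplicities -/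
def IsFamN {r : ℕ} {D : Finset (Fin 2 →₀ ℕ)} (m : Fin r → ℕ) (v : D → PtRing r) : Prop :=
  ∀ i, FamN v ∈ Dl i ^ m i

lemma IsFamN.lin {N : ℕ} (hN : 0 < N) {r d : ℕ} {m : Fin r → ℕ} {v : ExN N d → PtRing r}
    (h : IsFamN m v)
    (p : Fin r → Fin 2 → ℂ) : polyOf (ExN N d) (fun k => evP p (v k)) ∈ LinN N d m p := by
  refine ⟨wdegN_polyOf hN _, fun i => ?_⟩
  rw [← evS_FamN]
  exact evS_mem p i (h i)

lemma dichN {N : ℕ} (hN : 0 < N) (r d : ℕ) (m : Fin r → ℕ) :
    ∃ q : PtRing r, q ≠ 0 ∧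
      ((∀ p : Fin r → Fin 2 → ℂ, evP p q ≠ 0 → ∀ F ∈ LinN N d m p, F = 0) ∨
       (∃ v : ExN N d → PtRing r, IsFamN m v ∧ ∃ k, v k = q)) := by
  classical
  have hfin : ∀ i, Finite {n : Fin 2 →₀ ℕ // n.degree < m i} := fun i => finite_exps (m i)
  have : ∀ i, Fintype {n : Fin 2 →₀ ℕ // n.degree < m i} := fun i => Fintype.ofFinite _
  rcases dichotomy (condMat (ExN N d) m) with ⟨q, L, hq, hL⟩ | ⟨v, hv0, hv⟩
  · refine ⟨q, hq, Or.inl ?_⟩
    rintro p hp F ⟨hF1, hF2⟩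
    have hsup := (wdegN_le_iff hN).mp hF1
    have hFe : polyOf (ExN N d) (fun k => coeff k.1 F) = F := by
      ext n
      by_cases hn : n ∈ ExN N d
      · exact coeff_polyOf (ExN N d) (fun k => coeff k.1 F) ⟨n, hn⟩
      · have h1 : n ∉ (polyOf (ExN N d) (fun k => coeff k.1 F)).support := fun h =>
          hn (support_polyOf _ _ h)
        have h2 : n ∉ F.support := fun h => hn (hsup h)
        rw [notMem_support_iff.mp h1, notMem_support_iff.mp h2]
    have h3 : ((condMat (ExN N d) m).map (evP p)).mulVec (fun k => coeff k.1 F) = 0 := by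
      rw [mulVec_eq_zero_iff, hFe]
      exact hF2
    have h4 : (L.map (evP p)) * ((condMat (ExN N d) m).map (evP p)) = (evP p q) • 1 := by
      rw [← Matrix.map_mul, hL]
      ext k l
      rw [Matrix.map_apply, Matrix.smul_apply, Matrix.smul_apply, smul_eq_mul, smul_eq_mul, map_mul,
        Matrix.one_apply, Matrix.one_apply]
      split_ifs <;> simp
    have h5 : ((evP p q) • (1 : Matrix (ExN N d) (ExN N d) ℂ)).mulVec (fun k => coeff k.1 F) = 0 := by
      rw [← h4, ← Matrix.mulVec_mulVec, h3, Matrix.mulVec_zero]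
    rw [Matrix.smul_mulVec, Matrix.one_mulVec] at h5
    have h6 : (fun k : ExN N d => coeff k.1 F) = 0 := (smul_eq_zero.mp h5).resolve_left hp
    rw [← hFe, h6]
    simp [polyOf]
  · obtain ⟨k, hk⟩ := Function.ne_iff.mp hv0
    exact ⟨v k, hk, Or.inr ⟨v, FamN_mem m v hv, k, rfl⟩⟩

/-- the polynomial of the dichotomy -/
noncomputable def qqN {N : ℕ} (hN : 0 < N) (r d : ℕ) (m : Fin r → ℕ) : PtRing r :=
  Classical.choose (dichN hN r d m)

lemma qqN_ne {N : ℕ} (hN : 0 < N) (r d : ℕ) (m : Fin r → ℕ) : qqN hN r d m ≠ 0 :=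
  (Classical.choose_spec (dichN hN r d m)).1

lemma qqN_spec {N : ℕ} (hN : 0 < N) (r d : ℕ) (m : Fin r → ℕ) :
      ((∀ p : Fin r → Fin 2 → ℂ, evP p (qqN hN r d m) ≠ 0 → ∀ F ∈ LinN N d m p, F = 0) ∨
       (∃ v : ExN N d → PtRing r, IsFamN m v ∧ ∃ k, v k = qqN hN r d m)) :=
  (Classical.choose_spec (dichN hN r d m)).2

/-- very general points -/
structure VGN {N : ℕ} (hN : 0 < N) {r : ℕ} (p : Fin r → Fin 2 → ℂ) : Prop where
  inj : Function.Injective p
  qn : ∀ (d : ℕ) (m : Fin r → ℕ), evP p (qqN hN r d m) ≠ 0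

lemma VGN.fam {N : ℕ} {hN : 0 < N} {r : ℕ} {p : Fin r → Fin 2 → ℂ} (hp : VGN hN p) {d : ℕ} {m : Fin r → ℕ} {F : R2}
    (hF : F ∈ LinN N d m p) (hF0 : F ≠ 0) :
    ∃ v : ExN N d → PtRing r, IsFamN m v ∧ polyOf (ExN N d) (fun k => evP p (v k)) ≠ 0 := by
  rcases qqN_spec hN r d m with h | ⟨v, hv, k, hk⟩
  · exact absurd (h p (hp.qn d m) F hF) hF0
  · refine ⟨v, hv, ?_⟩
    intro h0
    have h1 := coeff_polyOf (ExN N d) (fun k => evP p (v k)) k
    rw [h0, coeff_zero, hk] at h1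
    exact hp.qn d m h1.symm

/-- permutation of the multiplicities -/
lemma VGN.perm {N : ℕ} {hN : 0 < N} {r : ℕ} {p : Fin r → Fin 2 → ℂ} (hp : VGN hN p) {d : ℕ} {m : Fin r → ℕ} {F : R2}
    (hF : F ∈ LinN N d m p) (hF0 : F ≠ 0) (σ : Equiv.Perm (Fin r)) :
    ∃ G ∈ LinN N d (m ∘ σ) p, G ≠ 0 := by
  obtain ⟨v, hv, hv0⟩ := hp.fam hF hF0
  rcases qqN_spec hN r d (m ∘ σ) with h | ⟨w, hw, k, hk⟩
  · exfalso
    -- the permuted family
    have hz : ∀ k, v k = 0 := by
      intro k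
      have h1 : rhoP σ.symm (v k) * qqN hN r d (m ∘ σ) = 0 := by
        apply evP_eq_zero
        intro p'
        rw [map_mul, mul_eq_zero]
        by_contra hcon
        push Not at hcon
        obtain ⟨hc1, hc2⟩ := hcon
        apply hc1
        rw [evP_rhoP]
        have h2 := hv.lin hN (fun i => p' (σ.symm i))
        have h3 : polyOf (ExN N d) (fun k => evP (fun i => p' (σ.symm i)) (v k)) ∈ LinN N d (m ∘ σ) p' := by
          refine ⟨h2.1, fun i => ?_⟩
          have h4 := h2.2 (σ i)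
          simpa using h4
        have h5 := h p' hc2 _ h3
        have h6 := coeff_polyOf (ExN N d) (fun k => evP (fun i => p' (σ.symm i)) (v k)) k
        rw [h5, coeff_zero] at h6
        exact h6.symm
      have h2 := (mul_eq_zero.mp h1).resolve_right (qqN_ne hN r d (m ∘ σ))
      rw [rhoP] at h2
      have hinj : Function.Injective (fun ij : Fin r × Fin 2 => ((σ.symm ij.1, ij.2) : Fin r × Fin 2)) := by
        rintro ⟨a, b⟩ ⟨a', b'⟩ hab
        simp only [Prod.mk.injEq, EmbeddingLike.apply_eq_iff_eq] at hab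
        exact Prod.ext hab.1 hab.2
      exact rename_injective _ hinj (by rw [h2, map_zero])
    apply hv0
    rw [polyOf]
    apply Finset.sum_eq_zero
    intro k _
    rw [hz k, map_zero, monomial_zero]
  · refine ⟨_, hw.lin hN p, ?_⟩
    intro h0
    have h1 := coeff_polyOf (ExN N d) (fun k => evP p (w k)) k
    rw [h0, coeff_zero, hk] at h1
    exact hp.qn d (m ∘ σ) h1.symm

/-- derivatives of a family -/
lemma VGN.deriv {N : ℕ} {hN : 0 < N} {r : ℕ} {p : Fin r → Fin 2 → ℂ} (hp : VGN hN p) {d : ℕ} {m : Fin r → ℕ} {F : R2}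
    (hF : F ∈ LinN N d m p) (hF0 : F ≠ 0) :
    ∃ F' ∈ LinN N d m p, F' ≠ 0 ∧ ∀ (j : Fin r) (k : Fin 2), ∃ G : R2,
      G ∈ LinN N d (Function.update m j (m j - 1)) p ∧ G + pderiv k F' ∈ ptIdeal (p j) ^ m j := by
  obtain ⟨v, hv, hv0⟩ := hp.fam hF hF0
  refine ⟨_, hv.lin hN p, hv0, fun j k => ?_⟩
  refine ⟨polyOf (ExN N d) (fun l => evP p (pderiv (j, k) (v l))), ⟨wdegN_polyOf hN _, fun i => ?_⟩,
    ?_⟩
  · rw [← evS_FamN, ← Dp_FamN]
    by_cases hij : i = j
    · subst hij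
      rw [Function.update_self]
      exact evS_mem p i (Dp_same i k (hv i))
    · rw [Function.update_of_ne hij]
      exact evS_mem p i (Dp_other hij k (hv i))
  · rw [← evS_FamN, ← evS_FamN, ← Dp_FamN, ← evS_Dx, ← map_add]
    exact evS_mem p j (Dp_add_Dx j k (hv j))

lemma eq_C_of_wdegN {N : ℕ} (hN : 0 < N) {U : R2} (h : wdeg N U = 0) : ∃ c : ℂ, U = C c := by
  refine ⟨coeff 0 U, ?_⟩
  ext n
  rw [coeff_C]
  split_ifs with hn
  · rw [hn]
  · by_contra hcon
    have h1 : n ∈ U.support := mem_support_iff.mpr hcon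
    have h2 : n 0 + N * n 1 ≤ wdeg N U := Finset.le_sup (f := fun n : Fin 2 →₀ ℕ => n 0 + N * n 1) h1
    have h3 : n 1 ≤ N * n 1 := Nat.le_mul_of_pos_left _ hN
    apply hn
    ext i
    fin_cases i
    · simp; omega
    · simp; omega

lemma dvd_same_degreeN {N : ℕ} (hN : 0 < N) {F G : R2} (hF : F ≠ 0) (hG : G ≠ 0) (hle : wdeg N G ≤ wdeg N F)
    (h : F ∣ G) : ∃ c : ℂ, c ≠ 0 ∧ G = C c * F := by
  obtain ⟨U, rfl⟩ := h
  have hU : U ≠ 0 := by
    rintro rfl
    exact hG (mul_zero _)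
  rw [wdeg_mul N hF hU] at hle
  obtain ⟨c, rfl⟩ := eq_C_of_wdegN hN (show wdeg N U = 0 by omega)
  exact ⟨c, fun hc => hU (by rw [hc, map_zero]), mul_comm _ _⟩

/-- the weighted Bezout inequality (module BZ) -/
def BezN : Prop := ∀ (N : ℕ) {F P : R2}, F ≠ 0 → P ≠ 0 → IsRelPrime F P → ∀ {ι : Type}
    [Fintype ι] (p : ι → Fin 2 → ℂ), Function.Injective p → ∀ (m n : ι → ℕ),
    (∀ i, F ∈ ptIdeal (p i) ^ m i) → (∀ i, P ∈ ptIdeal (p i) ^ n i) →
    N * (∑ i, m i * n i) ≤ wdeg N F * wdeg N P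

lemma self_memN (N : ℕ) {r : ℕ} (p : Fin r → Fin 2 → ℂ) {F : R2} (hF : F ≠ 0) :
    F ∈ LinN N (wdeg N F) (fun i => mult (p i) F) p :=
  ⟨le_rfl, fun i => (mem_pow_iff_le_mult hF).mpr le_rfl⟩

/-- Xu's lemma -/
theorem xuN (hB : BezN) {N : ℕ} {hN : 0 < N} {r : ℕ} {p : Fin r → Fin 2 → ℂ} (hp : VGN hN p)
    {F : R2} (hF : Irreducible F) (j : Fin r)
    (hj : 0 < mult (p j) F) :
    N * ∑ i, mult (p i) F * mult (p i) F ≤ wdeg N F * wdeg N F + N * mult (p j) F := by
  classical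
  have hF0 := hF.ne_zero
  obtain ⟨F', hF', hF'0, hder⟩ := hp.deriv (self_memN N p hF0) hF0
  by_cases hdvd : F ∣ F'
  · obtain ⟨c, hc, hcF⟩ := dvd_same_degreeN hN hF0 hF'0 hF'.1 hdvd
    choose G hG1 hG2 using hder j
    have hex : ∃ k, ¬ F ∣ G k := by
      by_contra hcon
      push Not at hcon
      have h1 : ∀ k, pderiv k F ∈ ptIdeal (p j) ^ (mult (p j) F) := by
        intro k
        have h2 : G k ∈ ptIdeal (p j) ^ (mult (p j) F) := by
          obtain ⟨U, hU⟩ := hcon k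
          rw [hU]
          exact Ideal.mul_mem_right _ _ ((mem_pow_iff_le_mult hF0).mpr le_rfl)
        have h3 : pderiv k F' ∈ ptIdeal (p j) ^ (mult (p j) F) := by
          have := Ideal.sub_mem _ (hG2 k) h2
          rwa [add_sub_cancel_left] at this
        rw [hcF, pderiv_C_mul, C_mul_mem_iff hc] at h3
        exact h3
      have h4 := mem_succ_of_pderiv hj h1 ((mem_pow_iff_le_mult hF0).mpr le_rfl)
      rw [mem_pow_iff_le_mult hF0] at h4
      omega
    obtain ⟨k, hk⟩ := hex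
    have hGk0 : G k ≠ 0 := by
      intro h0
      exact hk (by rw [h0]; exact dvd_zero _)
    have h5 := hB N hF0 hGk0 (relPrime hF hk) p hp.inj (fun i => mult (p i) F)
      (Function.update (fun i => mult (p i) F) j (mult (p j) F - 1))
      (fun i => (mem_pow_iff_le_mult hF0).mpr le_rfl) (hG1 k).2
    have h6 : wdeg N F * wdeg N (G k) ≤ wdeg N F * wdeg N F := Nat.mul_le_mul_left _ (hG1 k).1
    have h7 : ∑ i, mult (p i) F * mult (p i) F =
        (∑ i, mult (p i) F * (Function.update (fun i => mult (p i) F) j (mult (p j) F - 1)) i) +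
          mult (p j) F := by
      rw [← Finset.add_sum_erase _ _ (Finset.mem_univ j),
        ← Finset.add_sum_erase (a := j) _ (fun i => mult (p i) F *
          (Function.update (fun i => mult (p i) F) j (mult (p j) F - 1)) i) (Finset.mem_univ j)]
      rw [Function.update_self]
      have h8 : ∀ i ∈ Finset.univ.erase j, mult (p i) F *
          (Function.update (fun i => mult (p i) F) j (mult (p j) F - 1)) i =
          mult (p i) F * mult (p i) F := by
        intro i hi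
        rw [Function.update_of_ne (Finset.ne_of_mem_erase hi)]
      rw [Finset.sum_congr rfl h8]
      obtain ⟨a, ha⟩ : ∃ a, mult (p j) F = a + 1 := ⟨mult (p j) F - 1, by omega⟩
      rw [ha, Nat.add_sub_cancel]
      ring
    rw [h7, mul_add]
    omega
  · have h5 := hB N hF0 hF'0 (relPrime hF hdvd) p hp.inj (fun i => mult (p i) F)
      (fun i => mult (p i) F) (fun i => (mem_pow_iff_le_mult hF0).mpr le_rfl) hF'.2
    have h6 : wdeg N F * wdeg N F' ≤ wdeg N F * wdeg N F := Nat.mul_le_mul_left _ hF'.1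
    omega

/-- permuting the points -/
theorem permIneqN (hB : BezN) {N : ℕ} {hN : 0 < N} {r : ℕ} {p : Fin r → Fin 2 → ℂ} (hp : VGN hN p)
    {F : R2} (hF : Irreducible F)
    (σ : Equiv.Perm (Fin r)) (hσ : ∃ i, mult (p i) F ≠ mult (p (σ i)) F) :
    N * ∑ i, mult (p i) F * mult (p (σ i)) F ≤ wdeg N F * wdeg N F := by
  classical
  have hF0 := hF.ne_zero
  obtain ⟨G, hG, hG0⟩ := hp.perm (self_memN N p hF0) hF0 σ
  have hnd : ¬ F ∣ G := by
    intro hdvd
    obtain ⟨c, hc, hcF⟩ := dvd_same_degreeN hN hF0 hG0 hG.1 hdvd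
    have h1 : ∀ i, mult (p (σ i)) F ≤ mult (p i) F := by
      intro i
      have h2 := hG.2 i
      rw [hcF, C_mul_mem_iff hc, mem_pow_iff_le_mult hF0] at h2
      exact h2
    obtain ⟨i, hi⟩ := hσ
    have h2 : ∑ i, mult (p (σ i)) F < ∑ i, mult (p i) F :=
      Finset.sum_lt_sum (fun i _ => h1 i) ⟨i, Finset.mem_univ i, lt_of_le_of_ne (h1 i) (Ne.symm hi)⟩
    have h3 : ∑ i, mult (p (σ i)) F = ∑ i, mult (p i) F :=
      Equiv.sum_comp σ (fun i => mult (p i) F)
    omega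
  have h5 := hB N hF0 hG0 (relPrime hF hnd) p hp.inj (fun i => mult (p i) F)
    (fun i => mult (p (σ i)) F) (fun i => (mem_pow_iff_le_mult hF0).mpr le_rfl) hG.2
  have h6 : wdeg N F * wdeg N G ≤ wdeg N F * wdeg N F := Nat.mul_le_mul_left _ hG.1
  omega

/-- exchanging two points -/
theorem swapIneqN (hB : BezN) {N : ℕ} {hN : 0 < N} {r : ℕ} {p : Fin r → Fin 2 → ℂ} (hp : VGN hN p)
    {F : R2} (hF : Irreducible F)
    {i j : Fin r} (hij : mult (p i) F ≠ mult (p j) F) :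
    (N : ℤ) * ((∑ k, (mult (p k) F : ℤ) ^ 2) - ((mult (p i) F : ℤ) - mult (p j) F) ^ 2) ≤
      (wdeg N F : ℤ) ^ 2 := by
  classical
  have hne : i ≠ j := fun h => hij (by rw [h])
  have h := permIneqN hB hp hF (Equiv.swap i j) ⟨i, by rw [Equiv.swap_apply_left]; exact hij⟩
  have h1 : ((∑ k, mult (p k) F * mult (p (Equiv.swap i j k)) F : ℕ) : ℤ) =
      (∑ k, (mult (p k) F : ℤ) ^ 2) - ((mult (p i) F : ℤ) - mult (p j) F) ^ 2 := by
    push_cast
    have hj : j ∈ Finset.univ.erase i := Finset.mem_erase.mpr ⟨hne.symm, Finset.mem_univ j⟩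
    rw [← Finset.add_sum_erase _ _ (Finset.mem_univ i), ← Finset.add_sum_erase _ _ hj,
      ← Finset.add_sum_erase Finset.univ (fun k => (mult (p k) F : ℤ) ^ 2) (Finset.mem_univ i),
      ← Finset.add_sum_erase (Finset.univ.erase i) (fun k => (mult (p k) F : ℤ) ^ 2) hj,
      Equiv.swap_apply_left, Equiv.swap_apply_right]
    have h8 : ∀ k ∈ (Finset.univ.erase i).erase j,
        (mult (p k) F : ℤ) * mult (p (Equiv.swap i j k)) F = (mult (p k) F : ℤ) ^ 2 := by
      intro k hk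
      have h9 := Finset.ne_of_mem_erase hk
      have h10 := Finset.ne_of_mem_erase (Finset.mem_of_mem_erase hk)
      rw [Equiv.swap_apply_of_ne_of_ne h10 h9]
      ring
    rw [Finset.sum_congr rfl h8]
    ring
  rw [← h1]
  have : ((wdeg N F : ℤ)) ^ 2 = ((wdeg N F * wdeg N F : ℕ) : ℤ) := by push_cast; ring
  rw [this]
  exact_mod_cast h


/-- distinctness of the coordinates -/
noncomputable def dpol {r : ℕ} (i j : Fin r) (k : Fin 2) : PtRing r := X (i, k) - X (j, k)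

lemma dpol_ne {r : ℕ} {i j : Fin r} (hij : i ≠ j) (k : Fin 2) : dpol i j k ≠ 0 := by
  intro h
  have h1 : (X (i, k) : PtRing r) = X (j, k) := sub_eq_zero.mp h
  have h2 := X_injective h1
  exact hij (congrArg Prod.fst h2)

/-- the countable set of conditions -/
def TN {N : ℕ} (hN : 0 < N) (r : ℕ) : Set (PtRing r) :=
  (Set.range fun x : ℕ × (Fin r → ℕ) => qqN hN r x.1 x.2) ∪
    {Q | ∃ i j : Fin r, i ≠ j ∧ Q = dpol i j 0}

lemma TN_countable {N : ℕ} (hN : 0 < N) (r : ℕ) : (TN hN r).Countable := by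
  apply Set.Countable.union
  · exact Set.countable_range _
  · have : {Q : PtRing r | ∃ i j : Fin r, i ≠ j ∧ Q = dpol i j 0} ⊆
        Set.range fun x : Fin r × Fin r => (dpol x.1 x.2 0 : PtRing r) := by
      rintro Q ⟨i, j, _, rfl⟩
      exact ⟨(i, j), rfl⟩
    exact (Set.countable_range _).mono this

lemma TN_ne {N : ℕ} (hN : 0 < N) (r : ℕ) : ∀ Q ∈ TN hN r, Q ≠ 0 := by
  rintro Q (⟨x, rfl⟩ | ⟨i, j, hij, rfl⟩)
  · exact qqN_ne hN r x.1 x.2
  · exact dpol_ne hij 0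

lemma VGN_of {N : ℕ} (hN : 0 < N) {r : ℕ} {p : Fin r → Fin 2 → ℂ}
    (hp : ∀ Q ∈ TN hN r, evP p Q ≠ 0) : VGN hN p where
  inj := by
    intro i j hij
    by_contra hne
    apply hp _ (Or.inr ⟨i, j, hne, rfl⟩)
    rw [dpol, map_sub]
    simp [evP, hij]
  qn := fun d m => hp _ (Or.inl ⟨(d, m), rfl⟩)

theorem wxu_of (hB : BezN) (N r : ℕ) (hN : 0 < N) : ∃ T : Set (PtRing r), T.Countable ∧
    (∀ Q ∈ T, Q ≠ 0) ∧
    ∀ p : Fin r → Fin 2 → ℂ, (∀ Q ∈ T, evP p Q ≠ 0) → Function.Injective p ∧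
      ∀ F : R2, Irreducible F →
        (∀ j, 0 < mult (p j) F → N * ∑ i, mult (p i) F ^ 2 ≤ wdeg N F ^ 2 + N * mult (p j) F) ∧
        (∀ i j, mult (p i) F ≠ mult (p j) F → (N : ℤ) * ∑ k, (mult (p k) F : ℤ) ^ 2 ≤
          (wdeg N F : ℤ) ^ 2 + N * ((mult (p i) F : ℤ) - mult (p j) F) ^ 2) := by
  refine ⟨TN hN r, TN_countable hN r, TN_ne hN r, fun p hp => ?_⟩
  have hV := VGN_of hN hp
  refine ⟨hV.inj, fun F hF => ⟨fun j hj => ?_, fun i j hij => ?_⟩⟩
  · have h := xuN hB hV hF j hj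
    simp only [pow_two]
    exact h
  · have h := swapIneqN hB hV hF hij
    rw [mul_sub] at h
    linarith

end Pool.Agent.helper22.SC

namespace Pool.Agent.helper7.SC

/-- Xu's lemma and the exchange of two points on the weighted plane, at very general points -/
theorem wxu (N r : ℕ) (hN : 0 < N) : ∃ T : Set (PtRing r), T.Countable ∧ (∀ Q ∈ T, Q ≠ 0) ∧
    ∀ p : Fin r → Fin 2 → ℂ, (∀ Q ∈ T, evP p Q ≠ 0) → Function.Injective p ∧
      ∀ F : R2, Irreducible F →
        (∀ j, 0 < mult (p j) F → N * ∑ i, mult (p i) F ^ 2 ≤ wdeg N F ^ 2 + N * mult (p j) F) ∧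
        (∀ i j, mult (p i) F ≠ mult (p j) F → (N : ℤ) * ∑ k, (mult (p k) F : ℤ) ^ 2 ≤
          (wdeg N F : ℤ) ^ 2 + N * ((mult (p i) F : ℤ) - mult (p j) F) ^ 2) :=
  Pool.Agent.helper22.SC.wxu_of (fun N _ _ h1 h2 h3 _ _ p hp m n h4 h5 =>
    bezN N h1 h2 h3 p hp m n h4 h5) N r hN

end Pool.Agent.helper7.SC
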